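import Pool.Agent.W800.UB.Base

set_option autoImplicit false

namespace Pool.Agent.W800.UB.Lev

open MvPolynomial Pool.Agent.H936R2 Pool.Agent.H927R2.RD H294UB Pool.Agent.W275.UB Pool.Agent.W800.UB

/-- the iterate fixes the point modulo `π ^ j` -/
def SS {A : Type} [CommRing A] {n : ℕ} (π : A) (G : Fin n → MvPolynomial (Fin n) A)
    (x : Fin n → A) (j m : ℕ) : Prop :=
  ∃ c : A, IsUnit c ∧ Cong π j ((pt G)^[m] x) (c • x)

/-- linear algebra -/
theorem lin {k : Type} [Field k] {n : ℕ} (E : Matrix (Fin n) (Fin n) k) (hE : E * E = E)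
    (x u : Fin n → k) (lam : k) (hx : E.mulVec x = lam • x) (i : k) (s : k)
    (h : u + i • E.mulVec u = s • x) (hi : i + 1 ≠ 0) : ∃ s' : k, u = s' • x := by
  have h1 : (i + 1) • E.mulVec u = (s * lam) • x := by
    have h2 := congrArg E.mulVec h
    rw [Matrix.mulVec_add, Matrix.mulVec_smul, Matrix.mulVec_smul, Matrix.mulVec_mulVec, hE, hx,
      smul_smul] at h2
    rw [← h2, add_smul, one_smul, add_comm]
  have h3 : E.mulVec u = ((i + 1)⁻¹ * (s * lam)) • x := by
    rw [← smul_smul, ← h1, inv_smul_smul₀ hi]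
  refine ⟨s - i * ((i + 1)⁻¹ * (s * lam)), ?_⟩
  rw [h3, smul_smul] at h
  rw [sub_smul, ← h, add_sub_cancel_right]

section

variable {A : Type} [CommRing A] [IsDomain A] [IsDiscreteValuationRing A] {π : A}

theorem mult (hi : S_itr) (he : S_eul) {n d : ℕ} (G : Fin n → MvPolynomial (Fin n) A)
    (hG : ∀ i, (G i).IsHomogeneous d) (x : Fin n → A) (j a t : ℕ) (h : SS π G x j a) :
    SS π G x j (a * t) := by
  induction t with
  | zero => exact ⟨1, isUnit_one, fun i => by simp⟩
  | succ t ih =>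
    obtain ⟨c, hc, h1⟩ := h
    obtain ⟨c', hc', h2⟩ := ih
    refine ⟨c' ^ (d ^ a) * c, (hc'.pow _).mul hc, ?_⟩
    have h3 := cong_pt he π j (itr G a) (homog_itr hi G d hG a) _ _ h2
    rw [(he A n _ (itr G a) (homog_itr hi G d hG a)).1, pt_itr hi, ← Function.iterate_add_apply] at h3
    intro i
    have h4 := h3 i
    have h5 := h1 i
    rw [show a * (t + 1) = a + a * t by ring]
    simp only [Pi.smul_apply, smul_eq_mul] at h4 h5 ⊢
    have h6 : (pt G)^[a + a * t] x i - c' ^ d ^ a * c * x i =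
      ((pt G)^[a + a * t] x i - c' ^ d ^ a * (pt G)^[a] x i) +
        c' ^ d ^ a * ((pt G)^[a] x i - c * x i) := by ring
    rw [h6]
    exact dvd_add h4 (Dvd.dvd.mul_left h5 _)

/-- expansion of the iterates of a map that fixes `x` modulo `π ^ j` -/
theorem expand (he : S_eul) (hπ : Irreducible π)
    {k : Type} [Field k] (φ : A →+* k) (hφ : φ π = 0) {n e : ℕ}
    (Q : Fin n → MvPolynomial (Fin n) A) (hQ : ∀ i, (Q i).IsHomogeneous e) (x u : Fin n → A)
    (j : ℕ) (hj : 1 ≤ j) (c : A) (hc : IsUnit c) (h : pt Q x = c • (x + π ^ j • u))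
    (E : Matrix (Fin n) (Fin n) k) (hE : E * E = E) (hQE : (jac Q x).map φ = φ c • E) (i : ℕ) :
    ∃ (ci : A) (ui : Fin n → A), IsUnit ci ∧ (pt Q)^[i + 1] x = ci • (x + π ^ j • ui) ∧
      (fun a => φ (ui a)) = (fun a => φ (u a)) + (i : k) • E.mulVec (fun a => φ (u a)) := by
  induction i with
  | zero => exact ⟨c, u, hc, by simpa using h, by simp⟩
  | succ i ih =>
    obtain ⟨ci, ui, hci, h1, h2⟩ := ih
    obtain ⟨h3, -, -, h4⟩ := he A n e Q hQ
    obtain ⟨w, hw⟩ := h4 (π ^ j) x ui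
    obtain ⟨c', hc'⟩ := hc.exists_right_inv
    refine ⟨ci ^ e * c, u + c' • (jac Q x).mulVec ui + (π ^ j * c') • w, (hci.pow _).mul hc, ?_, ?_⟩
    · rw [Function.iterate_succ_apply', h1, h3, hw, h]
      funext a
      simp only [Pi.smul_apply, Pi.add_apply, smul_eq_mul]
      linear_combination (ci ^ e * (π ^ j * (jac Q x).mulVec ui a + π ^ (2 * j) * w a)) * (-hc')
    · funext a
      have h5 : φ (π ^ j) = 0 := by
        rw [map_pow, hφ, zero_pow (by omega)]
      have h6 : φ ((jac Q x).mulVec ui a) = ((jac Q x).map φ).mulVec (fun a => φ (ui a)) a := by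
        simp [Matrix.mulVec, dotProduct]
      have h7 : φ c * φ c' = 1 := by rw [← map_mul, hc', map_one]
      have h8 : E.mulVec (fun a => φ (ui a)) =
          E.mulVec (fun a => φ (u a)) + (i : k) • E.mulVec (fun a => φ (u a)) := by
        rw [h2, Matrix.mulVec_add, Matrix.mulVec_smul, Matrix.mulVec_mulVec, hE]
      have h9 : φ ((jac Q x).mulVec ui a) = φ c * (E.mulVec (fun a => φ (u a)) a +
          (i : k) * E.mulVec (fun a => φ (u a)) a) := by
        rw [h6, hQE, Matrix.smul_mulVec, h8]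
        simp
      simp only [Pi.add_apply, Pi.smul_apply, smul_eq_mul, map_add, map_mul, h5, h9]
      push_cast
      linear_combination (E.mulVec (fun a => φ (u a)) a +
          (i : k) * E.mulVec (fun a => φ (u a)) a) * h7

theorem char1 (hπ : Irreducible π) {k : Type} [Field k] (φ : A →+* k)
    (hφ : ∀ a, φ a = 0 ↔ π ∣ a) (hs : Function.Surjective φ) {n : ℕ} (x y u : Fin n → A)
    (hx : Prim x) (j : ℕ) (hj : 1 ≤ j) (c : A) (hc : IsUnit c) (h : y = c • (x + π ^ j • u)) :
    (∃ c' : A, IsUnit c' ∧ Cong π (j + 1) y (c' • x)) ↔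
      ∃ s : k, (fun a => φ (u a)) = s • (fun a => φ (x a)) := by
  have hπ0 : π ≠ 0 := hπ.ne_zero
  constructor
  · rintro ⟨c', hc', h1⟩
    obtain ⟨i0, hi0⟩ := hx
    have h2 : ∀ i, π ^ (j + 1) ∣ (c - c') * x i + π ^ j * (c * u i) := by
      intro i
      have h3 := h1 i
      rw [h] at h3
      simp only [Pi.smul_apply, Pi.add_apply, smul_eq_mul] at h3
      convert h3 using 1
      ring
    have h4 : π ^ j ∣ c - c' := by
      have h5 : π ^ j ∣ (c - c') * x i0 := by
        have h6 := (pow_dvd_pow π (Nat.le_succ j)).trans (h2 i0)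
        exact (dvd_add_left (dvd_mul_right _ _)).1 h6
      exact hi0.dvd_mul_right.1 h5
    obtain ⟨s, hs'⟩ := h4
    have h7 : φ c ≠ 0 := by
      rw [Ne, hφ, ← isUnit_iff_not_dvd hπ]
      exact hc
    refine ⟨-(φ c)⁻¹ * φ s, ?_⟩
    funext i
    have h8 := h2 i
    rw [hs'] at h8
    have h9 : π ^ j * π ∣ π ^ j * (s * x i + c * u i) := by
      rw [← pow_succ]
      convert h8 using 1
      ring
    have h10 : π ∣ s * x i + c * u i := (mul_dvd_mul_iff_left (pow_ne_zero j hπ0)).1 h9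
    rw [← hφ, map_add, map_mul, map_mul] at h10
    simp only [Pi.smul_apply, smul_eq_mul]
    field_simp
    linear_combination h10
  · rintro ⟨s, hs'⟩
    obtain ⟨s0, rfl⟩ := hs s
    have h1 : ∀ i, π ∣ u i - s0 * x i := by
      intro i
      rw [← hφ, map_sub, map_mul, sub_eq_zero]
      exact congrFun hs' i
    choose v hv using h1
    refine ⟨c * (1 + π ^ j * s0), hc.mul ?_, ?_⟩
    · rw [isUnit_iff_not_dvd hπ]
      intro h2
      have h3 : π ∣ π ^ j * s0 := Dvd.dvd.mul_right (dvd_pow_self π (by omega)) _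
      exact hπ.not_isUnit (isUnit_of_dvd_one ((dvd_add_left h3).1 h2))
    · intro i
      refine ⟨c * v i, ?_⟩
      rw [h]
      simp only [Pi.smul_apply, Pi.add_apply, smul_eq_mul]
      linear_combination (c * π ^ j) * hv i

end

theorem core (hi : S_itr) (he : S_eul) (A : Type) [CommRing A] [IsDomain A]
    [IsDiscreteValuationRing A] (π : A) (hπ : Irreducible π) (k : Type) [Field k] (φ : A →+* k)
    (hφ : ∀ a, φ a = 0 ↔ π ∣ a) (hφs : Function.Surjective φ) (p : ℕ) (hp : p.Prime)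
    (hpp : π ∣ (p : A)) (n d : ℕ) (G : Fin n → MvPolynomial (Fin n) A)
    (hG : ∀ i, (G i).IsHomogeneous d) (hg : Good G) (x : Fin n → A) (l : A) (hx : Prim x)
    (hl : IsUnit l) (hcong : Cong π 1 (pt G x) (l • x))
    (hJ : ∀ i j, π ∣ (jac G x * jac G x) i j - l * jac G x i j) (hper : Per G x) :
    ∃ r : ℕ, ∃ c : A, IsUnit c ∧ (pt G)^[p ^ r] x = c • x := by
  have hφu : ∀ a, IsUnit a → φ a ≠ 0 := fun a ha => (ha.map φ).ne_zero
  have hπφ : φ π = 0 := (hφ π).2 dvd_rfl
  have hchar : CharP k p := by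
    have h1 : (p : k) = 0 := by
      rw [← map_natCast φ p]
      exact (hφ _).2 hpp
    exact (CharP.charP_iff_prime_eq_zero hp).2 h1
  obtain ⟨m, hm0, c, hc⟩ := hper
  have hcu : IsUnit c := by
    apply unit_of_prim c x
    rw [← hc]
    exact prim_iter G hg x hx m
  have hSm : ∀ j, SS π G x j m := fun j => ⟨c, hcu, fun i => by rw [hc]; simp⟩
  have hxb : (fun a => φ (x a)) ≠ 0 := by
    intro h
    obtain ⟨i, hi⟩ := hx
    exact hφu _ hi (congrFun h i)
  -- the idempotent
  let Gb : Fin n → MvPolynomial (Fin n) k := fun i => map φ (G i)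
  have hGb : ∀ i, (Gb i).IsHomogeneous d := fun i => (hG i).map φ
  have hGx : pt Gb (fun a => φ (x a)) = φ l • (fun a => φ (x a)) := by
    rw [pt_map]
    funext i
    have := hcong i
    rw [pow_one, ← hφ, map_sub, sub_eq_zero] at this
    rw [this]
    simp
  have hl0 : φ l ≠ 0 := hφu l hl
  set E : Matrix (Fin n) (Fin n) k := (φ l)⁻¹ • jac Gb (fun a => φ (x a)) with hEdef
  have hEJ : jac Gb (fun a => φ (x a)) = φ l • E := by rw [hEdef, smul_inv_smul₀ hl0]
  have hEE : E * E = E := by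
    have h1 : jac Gb (fun a => φ (x a)) * jac Gb (fun a => φ (x a)) =
        φ l • jac Gb (fun a => φ (x a)) := by
      rw [jac_map, ← Matrix.map_mul]
      ext i j
      have := hJ i j
      rw [← hφ, map_sub, sub_eq_zero] at this
      simpa using this
    rw [hEdef, Matrix.smul_mul, Matrix.mul_smul, h1, inv_smul_smul₀ hl0]
  have hEx : E.mulVec (fun a => φ (x a)) = (d : k) • (fun a => φ (x a)) := by
    have h1 := (he k n d Gb hGb).2.2.1 (fun a => φ (x a))
    rw [hGx, hEJ, Matrix.smul_mulVec, smul_comm] at h1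
    have h2 := congrArg (fun v => (φ l)⁻¹ • v) h1
    simpa only [inv_smul_smul₀ hl0] using h2
  -- the derivative of the iterates
  have hjk : ∀ q : ℕ, 0 < q → ∀ (j : ℕ), 1 ≤ j → ∀ c' : A, Cong π j ((pt G)^[q] x) (c' • x) →
      (jac (itr G q) x).map φ = φ c' • E := by
    intro q hq j hj c' hc'
    obtain ⟨s, hs, h1, h2⟩ := cyc he Gb hGb (fun a => φ (x a)) (φ l) hl0 hGx q
    rw [← hEdef] at h2
    have hEq : E ^ q = E := by
      obtain ⟨q', rfl⟩ : ∃ q', q = q' + 1 := ⟨q - 1, by omega⟩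
      clear h2 h1 hc' hq
      induction q' with
      | zero => simp
      | succ q' ih => rw [pow_succ, ih, hEE]
    rw [hEq] at h2
    have h3 : s = φ c' := by
      obtain ⟨i, hi⟩ := Function.ne_iff.1 hxb
      rw [iter_map] at h1
      have h4 := congrFun h1 i
      have h5 : φ ((pt G)^[q] x i) = φ c' * φ (x i) := by
        have h6 := (dvd_pow_self π (by omega : j ≠ 0)).trans (hc' i)
        rw [← hφ, map_sub, sub_eq_zero] at h6
        simpa using h6
      simp only [Pi.smul_apply, smul_eq_mul] at h4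
      rw [h5] at h4
      exact (mul_right_cancel₀ hi h4).symm
    rw [(hi A n 0 G).2.1, ← jk_map, h2, h3]
  -- one step
  have step : ∀ j q : ℕ, 1 ≤ j → 0 < q → SS π G x j q → (∀ t, SS π G x j t → q ∣ t) →
      SS π G x (j + 1) q ∨ (SS π G x (j + 1) (q * p) ∧ ∀ t, SS π G x (j + 1) t → q * p ∣ t) := by
    intro j q hj hq hS hdiv
    by_cases hA : SS π G x (j + 1) q
    · exact Or.inl hA
    right
    obtain ⟨cq, hcq, hcongq⟩ := hS
    have hjac := hjk q hq j hj cq hcongq
    obtain ⟨u, hu⟩ : ∃ u : Fin n → A, pt (itr G q) x = cq • (x + π ^ j • u) := by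
      obtain ⟨v, hv⟩ := (cong_iff _ _ _ _).1 hcongq
      obtain ⟨c', hc'⟩ := hcq.exists_right_inv
      refine ⟨c' • v, ?_⟩
      rw [pt_itr hi, hv]
      funext a
      simp only [Pi.smul_apply, Pi.add_apply, smul_eq_mul]
      linear_combination (-(π ^ j * v a)) * hc'
    have hexp := expand he hπ φ hπφ (itr G q) (homog_itr hi G d hG q) x u j hj cq hcq hu E hEE hjac
    have hchr : ∀ i : ℕ, SS π G x (j + 1) (q * (i + 1)) ↔
        ∃ s : k, (fun a => φ (u a)) + (i : k) • E.mulVec (fun a => φ (u a)) =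
          s • (fun a => φ (x a)) := by
      intro i
      obtain ⟨ci, ui, hci, h1, h2⟩ := hexp i
      rw [← h2]
      rw [← char1 hπ φ hφ hφs x _ ui hx j hj ci hci h1]
      rw [pt_itr hi, ← Function.iterate_mul]
      rfl
    have hbad : ∀ i : ℕ, SS π G x (j + 1) (q * (i + 1)) → p ∣ i + 1 := by
      intro i hS'
      obtain ⟨s, hs⟩ := (hchr i).1 hS'
      by_contra hnd
      apply hA
      have h3 : ((i : k) + 1) ≠ 0 := by
        intro h4
        apply hnd
        rw [← CharP.cast_eq_zero_iff k p]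
        push_cast
        exact h4
      obtain ⟨s', hs'⟩ := lin E hEE _ _ _ hEx (i : k) s hs h3
      have h4 := (hchr 0).2 ⟨s', by simpa using hs'⟩
      simpa using h4
    have hlift : ∀ t, SS π G x (j + 1) t → SS π G x j t := by
      rintro t ⟨c', hc', h⟩
      exact ⟨c', hc', fun i => (pow_dvd_pow π (Nat.le_succ j)).trans (h i)⟩
    refine ⟨?_, ?_⟩
    · obtain ⟨i1, hi1⟩ := hdiv m (hSm j)
      have hi10 : i1 ≠ 0 := by
        rintro rfl
        rw [mul_zero] at hi1
        omega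
      obtain ⟨i, rfl⟩ : ∃ i, i1 = i + 1 := ⟨i1 - 1, by omega⟩
      have h1 := hSm (j + 1)
      rw [hi1] at h1
      have h2 := hbad i h1
      obtain ⟨s, hs⟩ := (hchr i).1 h1
      have h3 : (i : k) = -1 := by
        rw [← CharP.cast_eq_zero_iff k p] at h2
        push_cast at h2
        linear_combination h2
      have h4 : ((p - 1 : ℕ) : k) = -1 := by
        rw [Nat.cast_sub hp.one_le, CharP.cast_eq_zero k p]
        simp
      have h5 := (hchr (p - 1)).2 ⟨s, by rw [h4, ← h3]; exact hs⟩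
      rwa [Nat.sub_add_cancel hp.one_le] at h5
    · intro t ht
      obtain ⟨i1, hi1⟩ := hdiv t (hlift t ht)
      rcases Nat.eq_zero_or_pos i1 with h0 | hpos
      · rw [hi1, h0, mul_zero]; exact dvd_zero _
      · obtain ⟨i, rfl⟩ : ∃ i, i1 = i + 1 := ⟨i1 - 1, by omega⟩
        rw [hi1] at ht ⊢
        exact Nat.mul_dvd_mul_left q (hbad i ht)
  have hlift1 : ∀ j t, SS π G x (j + 1) t → SS π G x j t := by
    rintro j t ⟨c', hc', h⟩
    exact ⟨c', hc', fun i => (pow_dvd_pow π (Nat.le_succ j)).trans (h i)⟩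
  have key : ∀ j : ℕ, ∃ r : ℕ, SS π G x (j + 1) (p ^ r) ∧
      ∀ t, SS π G x (j + 1) t → p ^ r ∣ t := by
    intro j
    induction j with
    | zero => exact ⟨0, ⟨l, hl, by simpa using hcong⟩, fun t _ => by simp⟩
    | succ j ih =>
      obtain ⟨r, h1, h2⟩ := ih
      rcases step (j + 1) (p ^ r) (by omega) (pow_pos hp.pos r) h1 h2 with h | ⟨h3, h4⟩
      · exact ⟨r, h, fun t ht => h2 t (hlift1 _ t ht)⟩
      · exact ⟨r + 1, by rw [pow_succ]; exact h3, by rw [pow_succ]; exact h4⟩
  have hall : ∀ j : ℕ, SS π G x (j + 1) (p ^ m) := by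
    intro j
    obtain ⟨r, h1, h2⟩ := key j
    have h3 : r ≤ m := by
      have h4 := Nat.le_of_dvd hm0 (h2 m (hSm _))
      have h5 : r < p ^ r := Nat.lt_pow_self hp.one_lt
      omega
    obtain ⟨t, ht⟩ := pow_dvd_pow p h3
    rw [ht]
    exact mult hi he G hG x (j + 1) _ t h1
  have hzero : ∀ a : A, (∀ j : ℕ, π ^ (j + 1) ∣ a) → a = 0 := by
    intro a ha
    by_contra hne
    obtain ⟨N, hN⟩ := FiniteMultiplicity.of_not_isUnit hπ.not_isUnit hne
    exact hN (ha N)
  have hprim := prim_iter G hg x hx (p ^ m)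
  set y := (pt G)^[p ^ m] x with hy
  obtain ⟨i0, hi0⟩ := id hx
  obtain ⟨b, hb⟩ := hi0.exists_right_inv
  have hyx : ∀ i, y i * x i0 - y i0 * x i = 0 := by
    intro i
    apply hzero
    intro j
    obtain ⟨c', hc', h⟩ := hall j
    rw [← hy] at h
    have h1 := h i
    have h2 := h i0
    simp only [Pi.smul_apply, smul_eq_mul] at h1 h2
    have h3 : y i * x i0 - y i0 * x i = (y i - c' * x i) * x i0 - (y i0 - c' * x i0) * x i := by ring
    rw [h3]
    exact dvd_sub (Dvd.dvd.mul_right h1 _) (Dvd.dvd.mul_right h2 _)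
  have hyc : y = (y i0 * b) • x := by
    funext i
    have := hyx i
    simp only [Pi.smul_apply, smul_eq_mul]
    linear_combination b * this - (y i) * hb
  refine ⟨m, y i0 * b, ?_, hyc⟩
  apply unit_of_prim _ x
  rw [← hyc]
  exact hprim

theorem main : S_itr → S_eul → S_lev := by
  intro hi he A _ _ _ π hπ p hp hpp n d G hG hg x l hx hl hcong hJ hper
  have hmax : (Ideal.span {π}).IsMaximal := isMaximal hπ
  let _ : Field (A ⧸ Ideal.span {π}) := Ideal.Quotient.field _
  exact core hi he A π hπ (A ⧸ Ideal.span {π}) (Ideal.Quotient.mk _) mk_eq_zero_iff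
    Ideal.Quotient.mk_surjective p hp hpp n d G hG hg x l hx hl hcong hJ hper

end Pool.Agent.W800.UB.Lev
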