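import Pool.Agent.W800.UB.Base

set_option autoImplicit false

namespace Pool.Agent.W800.UB.Red

open MvPolynomial Pool.Agent.H936R2 Pool.Agent.H927R2.RD H294UB Pool.Agent.W275.UB Pool.Agent.W800.UB

theorem step1 (hi : S_itr) (he : S_eul) {k : Type} [Field k] [Finite k] (q : ℕ)
    (hq : Nat.card k ≤ q) {n d : ℕ}
    (P : Fin n → MvPolynomial (Fin n) k) (hP : ∀ i, (P i).IsHomogeneous d) (x : Fin n → k)
    (m : ℕ) (hm : 0 < m) (c : k) (hc : c ≠ 0) (hx : (pt P)^[m] x = c • x) :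
    ∃ s : k, s ≠ 0 ∧ (pt P)^[(q ^ n).factorial] x = s • x := by
  classical
  have : Fintype k := Fintype.ofFinite k
  have hcard : Fintype.card (Fin n → k) < Fintype.card (Fin (q ^ n + 1)) := by
    rw [Fintype.card_fun, Fintype.card_fin, Fintype.card_fin, ← Nat.card_eq_fintype_card]
    exact Nat.lt_succ_of_le (Nat.pow_le_pow_left hq n)
  obtain ⟨a', b', hab, heq⟩ := Fintype.exists_ne_map_eq_of_card_lt
    (fun a : Fin (q ^ n + 1) => (pt P)^[a.1] x) hcard
  obtain ⟨a, b, hlt, hb, heq⟩ : ∃ a b : ℕ, a < b ∧ b ≤ q ^ n ∧ (pt P)^[a] x = (pt P)^[b] x := by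
    rcases lt_or_gt_of_ne (fun h => hab (Fin.ext h)) with h | h
    · exact ⟨a'.1, b'.1, h, Nat.lt_succ_iff.1 b'.2, heq⟩
    · exact ⟨b'.1, a'.1, h, Nat.lt_succ_iff.1 a'.2, heq.symm⟩
  -- multiples of m
  have hxm : pt (itr P m) x = c • x := by rw [pt_itr hi, hx]
  obtain ⟨s, hs, h1, -⟩ := cyc he (itr P m) (homog_itr hi P d hP m) x c hc hxm a
  rw [pt_itr hi, ← Function.iterate_mul] at h1
  have hma : a ≤ m * a := Nat.le_mul_of_pos_left _ hm
  have h2 : (pt P)^[b - a] ((pt P)^[m * a] x) = (pt P)^[m * a] x := by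
    rw [← Function.iterate_add_apply, show b - a + m * a = (m * a - a) + b by omega,
      Function.iterate_add_apply, ← heq, ← Function.iterate_add_apply]
    congr 2
    omega
  rw [h1, ← pt_itr hi, (he k n _ (itr P (b - a)) (homog_itr hi P d hP (b - a))).1] at h2
  have h3 : pt (itr P (b - a)) x = ((s ^ (d ^ (b - a)))⁻¹ * s) • x := by
    rw [← smul_smul, ← h2, inv_smul_smul₀ (pow_ne_zero _ hs)]
  obtain ⟨t, ht⟩ : b - a ∣ (q ^ n).factorial := Nat.dvd_factorial (by omega) (by omega)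
  obtain ⟨s', hs', h4, -⟩ := cyc he (itr P (b - a)) (homog_itr hi P d hP (b - a)) x _
    (mul_ne_zero (inv_ne_zero (pow_ne_zero _ hs)) hs) h3 t
  rw [pt_itr hi, ← Function.iterate_mul, ← ht] at h4
  exact ⟨s', hs', h4⟩

theorem step2 (hi : S_itr) (he : S_eul) (hm : S_mon) {k : Type} [Field k] [Finite k] (q : ℕ)
    (hq : Nat.card k ≤ q) {n d : ℕ}
    (P : Fin n → MvPolynomial (Fin n) k) (hP : ∀ i, (P i).IsHomogeneous d) (x : Fin n → k)
    (m : ℕ) (hm0 : 0 < m) (c : k) (hc : c ≠ 0) (hx : (pt P)^[m] x = c • x) :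
    ∃ s : k, s ≠ 0 ∧ (pt P)^[(q ^ n).factorial * (q ^ (n * n)).factorial] x = s • x ∧
      jk P ((q ^ n).factorial * (q ^ (n * n)).factorial) x *
        jk P ((q ^ n).factorial * (q ^ (n * n)).factorial) x =
        s • jk P ((q ^ n).factorial * (q ^ (n * n)).factorial) x := by
  obtain ⟨l, hl, h1⟩ := step1 hi he q hq P hP x m hm0 c hc hx
  obtain ⟨s, hs, h2, h3⟩ := cyc he (itr P (q ^ n).factorial) (homog_itr hi P d hP _) x l hl
    (by rw [pt_itr hi, h1]) (q ^ (n * n)).factorial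
  rw [pt_itr hi, ← Function.iterate_mul] at h2
  rw [jk_mul hi] at h3
  refine ⟨s, hs, h2, ?_⟩
  have hfin : Finite (Matrix (Fin n) (Fin n) k) := by
    unfold Matrix; infer_instance
  have hcard : Nat.card (Matrix (Fin n) (Fin n) k) ≤ q ^ (n * n) := by
    have h5 : Nat.card (Matrix (Fin n) (Fin n) k) = Nat.card k ^ (n * n) := by
      unfold Matrix
      rw [Nat.card_fun, Nat.card_fun, Nat.card_fin, ← pow_mul]
    rw [h5]
    exact Nat.pow_le_pow_left hq _
  have h4 := hm (Matrix (Fin n) (Fin n) k) (q ^ (n * n)) hcard (l⁻¹ • jac (itr P (q ^ n).factorial) x)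
  rw [h3, Matrix.smul_mul, Matrix.mul_smul, h4]

theorem main : S_itr → S_eul → S_mon → S_red := by
  intro hi he hm p D n hp
  refine ⟨((p ^ D) ^ n).factorial * ((p ^ D) ^ (n * n)).factorial,
    Nat.mul_pos (Nat.factorial_pos _) (Nat.factorial_pos _), ?_⟩
  intro A _ _ _ π hπ hfin hcard d P hP hg x hx hper
  obtain ⟨m, hm0, c, hc⟩ := hper
  have hcu : IsUnit c := by
    apply unit_of_prim c x
    rw [← hc]
    exact prim_iter P hg x hx m
  set W := ((p ^ D) ^ n).factorial * ((p ^ D) ^ (n * n)).factorial with hW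
  have hmax : (Ideal.span {π}).IsMaximal := isMaximal hπ
  let φ : A →+* A ⧸ Ideal.span {π} := Ideal.Quotient.mk _
  letI : Field (A ⧸ Ideal.span {π}) := Ideal.Quotient.field _
  let Pb : Fin n → MvPolynomial (Fin n) (A ⧸ Ideal.span {π}) := fun i => map φ (P i)
  have hPb : ∀ i, (Pb i).IsHomogeneous d := fun i => (hP i).map φ
  have h1 : (pt Pb)^[m] (fun i => φ (x i)) = φ c • (fun i => φ (x i)) := by
    rw [iter_map, hc]
    funext i
    simp
  obtain ⟨s, hs, h2, h3⟩ := step2 hi he hm (p ^ D) hcard Pb hPb (fun i => φ (x i)) m hm0 (φ c)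
    ((mk_ne_zero_iff hπ c).2 hcu) h1
  rw [← hW] at h2 h3
  obtain ⟨l, rfl⟩ := Ideal.Quotient.mk_surjective s
  refine ⟨l, (mk_ne_zero_iff hπ l).1 hs, ?_, ?_⟩
  · intro i
    rw [pow_one, ← mk_eq_zero_iff, map_sub, sub_eq_zero]
    rw [iter_map] at h2
    have := congrFun h2 i
    simpa using this
  · intro i j
    rw [← mk_eq_zero_iff, map_sub, sub_eq_zero]
    rw [jk_map, ← Matrix.map_mul] at h3
    have := congrFun (congrFun h3 i) j
    simpa using this

end Pool.Agent.W800.UB.Red
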