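import Pool.Agent.W275.UB.Den

set_option autoImplicit false

namespace Pool.Agent.W800.UB.Sz

open MvPolynomial Pool.Agent.W275.UB

noncomputable def ph {ι : Type} (a : ι → ℤ) (w : ℤ) : MvPolynomial ι ℤ →+* MvPolynomial ι ℚ :=
  eval₂Hom (Int.castRingHom (MvPolynomial ι ℚ)) fun i => C (a i : ℚ) + C (w : ℚ) * X i

theorem tdeg_ph {ι : Type} (a : ι → ℤ) (w : ℤ) (q : MvPolynomial ι ℤ) :
    (ph a w q).totalDegree ≤ q.totalDegree := by
  unfold ph
  rw [coe_eval₂Hom, eval₂_eq]
  refine totalDegree_finsetSum_le ?_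
  intro s hs
  refine (totalDegree_mul _ _).trans ?_
  have h1 : (Int.castRingHom (MvPolynomial ι ℚ) (coeff s q)).totalDegree = 0 := by
    have : (Int.castRingHom (MvPolynomial ι ℚ) (coeff s q)) = C ((coeff s q : ℤ) : ℚ) := by
      simp
    rw [this, totalDegree_C]
  rw [h1, zero_add]
  refine (totalDegree_finset_prod _ _).trans ?_
  refine le_trans ?_ (le_totalDegree hs)
  rw [Finsupp.sum]
  refine Finset.sum_le_sum fun i _ => ?_
  refine (totalDegree_pow _ _).trans ?_
  have h2 : (C (a i : ℚ) + C (w : ℚ) * X i : MvPolynomial ι ℚ).totalDegree ≤ 1 := by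
    refine (totalDegree_add _ _).trans ?_
    rw [totalDegree_C]
    refine max_le (Nat.zero_le _) ?_
    refine (totalDegree_mul _ _).trans ?_
    rw [totalDegree_C, totalDegree_X]
  calc s i * _ ≤ s i * 1 := Nat.mul_le_mul_left _ h2
    _ = s i := mul_one _

theorem sz {ι : Type} [Fintype ι] (F : MvPolynomial ι ℚ) (hF : F ≠ 0) (L : ℕ) (hL : 0 < L)
    (Θ : Finset (ι → ℤ)) (hΘ : ∀ t ∈ Θ, ∀ i, 0 ≤ t i ∧ t i < L)
    (h0 : ∀ t ∈ Θ, eval (fun i => (t i : ℚ)) F = 0) :
    Θ.card * L ≤ F.totalDegree * L ^ (Fintype.card ι) := by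
  classical
  let e : ι ≃ Fin (Fintype.card ι) := Fintype.equivFin ι
  have hF' : rename e F ≠ 0 := by
    intro h
    apply hF
    apply rename_injective e e.injective
    rw [h, map_zero]
  let S : Finset ℚ := (Finset.range L).image (fun n : ℕ => (n : ℚ))
  have hS : S.card = L := by
    rw [Finset.card_image_of_injective _ Nat.cast_injective, Finset.card_range]
  have h1 := schwartz_zippel_totalDegree hF' S
  rw [hS] at h1
  have h2 : Θ.card ≤ (Finset.filter (fun f => eval f (rename e F) = 0)
      (Fintype.piFinset fun _ : Fin (Fintype.card ι) => S)).card := by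
    refine Finset.card_le_card_of_injOn (fun t => fun j => ((t (e.symm j) : ℤ) : ℚ)) ?_ ?_
    · intro t ht
      simp only [Finset.coe_filter, Set.mem_setOf_eq, Fintype.mem_piFinset]
      refine ⟨?_, ?_⟩
      · intro j
        obtain ⟨h3, h4⟩ := hΘ t ht (e.symm j)
        obtain ⟨m, hm⟩ := Int.eq_ofNat_of_zero_le h3
        refine Finset.mem_image.2 ⟨m, ?_, ?_⟩
        · rw [Finset.mem_range]
          rw [hm] at h4
          exact_mod_cast h4
        · rw [hm]; simp
      · rw [eval_rename]
        have : (fun j => ((t (e.symm j) : ℤ) : ℚ)) ∘ e = fun i => (t i : ℚ) := by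
          ext i; simp
        rw [this]
        exact h0 t ht
    · intro t _ t' _ htt
      ext i
      have := congrFun htt (e i)
      simp only [Equiv.symm_apply_apply] at this
      exact_mod_cast this
  have hLq : (0 : NNRat) < L := by exact_mod_cast hL
  have h5 : (Θ.card : NNRat) / (L : NNRat) ^ Fintype.card ι ≤ F.totalDegree / L := by
    refine le_trans ?_ (h1.trans ?_)
    · gcongr
    · gcongr
      exact totalDegree_rename_le _ _
  rw [div_le_div_iff₀ (by positivity) hLq] at h5
  exact_mod_cast h5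

theorem main : S_sz := by
  intro ι _ P k
  refine ⟨(P.support.sup fun i => (P.coeff i).totalDegree) + P.natDegree * k, ?_⟩
  intro L a w Θ T Q hw hQ hΘ hE hT hQT
  have hL : 0 < L := by
    rcases Nat.eq_zero_or_pos L with h | h
    · rw [h, mul_zero] at hE; exact absurd hE (Nat.not_lt_zero _)
    · exact h
  set F : MvPolynomial ι ℚ := (P.map (ph a w)).eval Q with hFdef
  have hdeg : F.totalDegree ≤ (P.support.sup fun i => (P.coeff i).totalDegree) + P.natDegree * k := by
    rw [hFdef, Polynomial.eval_map, Polynomial.eval₂_eq_sum_range]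
    refine totalDegree_finsetSum_le ?_
    intro i hi
    by_cases hc : P.coeff i = 0
    · rw [hc, map_zero, zero_mul, totalDegree_zero]
      exact Nat.zero_le _
    refine (totalDegree_mul _ _).trans ?_
    refine Nat.add_le_add ?_ ?_
    · refine (tdeg_ph a w _).trans ?_
      exact Finset.le_sup (f := fun i => (P.coeff i).totalDegree) (Polynomial.mem_support_iff.2 hc)
    · refine (totalDegree_pow _ _).trans ?_
      exact Nat.mul_le_mul (Nat.lt_succ_iff.1 (Finset.mem_range.1 hi)) hQ
  have hzero : ∀ t ∈ Θ, eval (fun i => (t i : ℚ)) F = 0 := by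
    intro t ht
    have h1 : (eval (fun i => (t i : ℚ))).comp (ph a w) =
        (Int.castRingHom ℚ).comp (eval fun i => a i + w * t i) := by
      refine MvPolynomial.ringHom_ext ?_ ?_
      · intro r
        simp [ph]
      · intro i
        simp [ph]
    have h2 := hT t ht
    rw [hFdef, Polynomial.eval_map, Polynomial.hom_eval₂, h1, hQT t ht,
      show ((T t : ℤ) : ℚ) = Int.castRingHom ℚ (T t) from rfl, ← Polynomial.hom_eval₂,
      ← Polynomial.eval_map, h2, map_zero]
  have hF : F = 0 := by
    by_contra hne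
    have h1 := sz F hne L hL Θ hΘ hzero
    have h2 : F.totalDegree * L ^ (Fintype.card ι) ≤
      ((P.support.sup fun i => (P.coeff i).totalDegree) + P.natDegree * k) * L ^ (Fintype.card ι) :=
      Nat.mul_le_mul_right _ hdeg
    omega
  let ψ : MvPolynomial ι ℚ →+* MvPolynomial ι ℚ :=
    eval₂Hom C (fun i => C ((w : ℚ)⁻¹) * (X i - C (a i : ℚ)))
  refine ⟨ψ Q, ?_⟩
  have hw' : (w : ℚ) ≠ 0 := by exact_mod_cast hw
  have h1 : ψ.comp (ph a w) = MvPolynomial.map (Int.castRingHom ℚ) := by
    refine MvPolynomial.ringHom_ext ?_ ?_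
    · intro r
      simp [ph, ψ]
    · intro i
      have h3 : (C (w : ℚ) : MvPolynomial ι ℚ) * C ((w : ℚ)⁻¹) = 1 := by
        rw [← C_mul, mul_inv_cancel₀ hw', C_1]
      simp only [ph, ψ, RingHom.comp_apply, eval₂Hom_X', map_add, map_mul, map_X, eval₂Hom_C]
      linear_combination (X i - C (a i : ℚ)) * h3
  rw [← h1, Polynomial.eval_map, ← Polynomial.hom_eval₂, ← Polynomial.eval_map, ← hFdef, hF, map_zero]

end Pool.Agent.W800.UB.Sz
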