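import Pool.Agent.W275.UB.Stm

set_option autoImplicit false

namespace Pool.Agent.W800.UB

open MvPolynomial Pool.Agent.H936R2 Pool.Agent.H927R2.RD H294UB Pool.Agent.W275.UB

section

variable {R R' : Type} [CommRing R] [CommRing R'] {n : ℕ}

theorem pt_map (φ : R →+* R') (P : Fin n → MvPolynomial (Fin n) R) (x : Fin n → R) :
    pt (fun i => map φ (P i)) (fun i => φ (x i)) = fun i => φ (pt P x i) := by
  funext i
  simp only [pt]
  rw [eval_map, ← coe_eval₂Hom]
  have : eval₂Hom φ (fun i => φ (x i)) = φ.comp (eval x) := by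
    refine ringHom_ext ?_ ?_
    · intro r; simp
    · intro i; simp
  rw [this]
  rfl

theorem jac_map (φ : R →+* R') (P : Fin n → MvPolynomial (Fin n) R) (x : Fin n → R) :
    jac (fun i => map φ (P i)) (fun i => φ (x i)) = (jac P x).map φ := by
  ext i j
  simp only [jac, Matrix.map_apply]
  rw [pderiv_map]
  have := congrFun (pt_map φ (fun _ => pderiv j (P i)) x) i
  simpa only [pt] using this

theorem iter_map (φ : R →+* R') (P : Fin n → MvPolynomial (Fin n) R) (x : Fin n → R) (k : ℕ) :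
    (pt (fun i => map φ (P i)))^[k] (fun i => φ (x i)) = fun i => φ ((pt P)^[k] x i) := by
  induction k with
  | zero => rfl
  | succ k ih => rw [Function.iterate_succ_apply', ih, pt_map, Function.iterate_succ_apply']

theorem jk_map (φ : R →+* R') (P : Fin n → MvPolynomial (Fin n) R) (x : Fin n → R) (k : ℕ) :
    jk (fun i => map φ (P i)) k (fun i => φ (x i)) = (jk P k x).map φ := by
  induction k with
  | zero =>
    simp only [jk]
    exact (Matrix.map_one φ (map_zero φ) (map_one φ)).symm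
  | succ k ih =>
    simp only [jk]
    rw [ih, iter_map, jac_map, Matrix.map_mul]

theorem jk_add (P : Fin n → MvPolynomial (Fin n) R) (a b : ℕ) (z : Fin n → R) :
    jk P (a + b) z = jk P a ((pt P)^[b] z) * jk P b z := by
  induction a with
  | zero => simp [jk]
  | succ a ih =>
    rw [show a + 1 + b = (a + b) + 1 by ring]
    simp only [jk]
    rw [ih, Function.iterate_add_apply, Matrix.mul_assoc]

theorem pt_itr (hi : S_itr) (P : Fin n → MvPolynomial (Fin n) R) (M : ℕ) :
    pt (itr P M) = (pt P)^[M] := by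
  funext z
  exact (hi R n 0 P).1 M z

theorem jk_mul (hi : S_itr) (P : Fin n → MvPolynomial (Fin n) R) (M t : ℕ) (z : Fin n → R) :
    jk (itr P M) t z = jk P (M * t) z := by
  induction t with
  | zero => simp [jk]
  | succ t ih =>
    simp only [jk]
    rw [ih, (hi R n 0 P).2.1, pt_itr hi, ← Function.iterate_mul, show M * (t + 1) = M + M * t by ring,
      jk_add]

theorem homog_itr (hi : S_itr) (P : Fin n → MvPolynomial (Fin n) R) (d : ℕ)
    (hP : ∀ i, (P i).IsHomogeneous d) (M : ℕ) : ∀ i, (itr P M i).IsHomogeneous (d ^ M) :=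
  (hi R n d P).2.2.1 hP M

end

theorem cyc (he : S_eul) {k : Type} [Field k] {n e : ℕ} (Q : Fin n → MvPolynomial (Fin n) k)
    (hQ : ∀ i, (Q i).IsHomogeneous e) (x : Fin n → k) (l : k) (hl : l ≠ 0) (hx : pt Q x = l • x)
    (t : ℕ) : ∃ s : k, s ≠ 0 ∧ (pt Q)^[t] x = s • x ∧ jk Q t x = s • (l⁻¹ • jac Q x) ^ t := by
  obtain ⟨h1, h2, -, -⟩ := he k n e Q hQ
  induction t with
  | zero => exact ⟨1, one_ne_zero, by simp, by simp [jk]⟩
  | succ t ih =>
    obtain ⟨s, hs, h3, h4⟩ := ih
    refine ⟨s ^ e * l, mul_ne_zero (pow_ne_zero _ hs) hl, ?_, ?_⟩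
    · rw [Function.iterate_succ_apply', h3, h1, hx, smul_smul]
    · simp only [jk]
      rw [h3, h4, pow_succ', ← smul_smul, Matrix.smul_mul, smul_inv_smul₀ hl, Matrix.mul_smul,
        ← Matrix.smul_mul, h2, Matrix.smul_mul]

/-- congruent vectors -/
theorem cong_iff {A : Type} [CommRing A] {n : ℕ} (π : A) (j : ℕ) (x y : Fin n → A) :
    Cong π j x y ↔ ∃ u : Fin n → A, x = y + π ^ j • u := by
  constructor
  · intro h
    choose u hu using h
    refine ⟨u, ?_⟩
    funext i
    simp only [Pi.add_apply, Pi.smul_apply, smul_eq_mul, ← hu i]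
    ring
  · rintro ⟨u, rfl⟩ i
    exact ⟨u i, by simp⟩

theorem cong_pt (he : S_eul) {A : Type} [CommRing A] {n d : ℕ} (π : A) (j : ℕ)
    (P : Fin n → MvPolynomial (Fin n) A) (hP : ∀ i, (P i).IsHomogeneous d) (x y : Fin n → A)
    (h : Cong π j x y) : Cong π j (pt P x) (pt P y) := by
  obtain ⟨u, rfl⟩ := (cong_iff π j x y).1 h
  obtain ⟨w, hw⟩ := (he A n d P hP).2.2.2 (π ^ j) y u
  rw [cong_iff]
  refine ⟨(jac P y).mulVec u + π ^ j • w, ?_⟩
  rw [hw, smul_add, smul_smul, ← sq, add_assoc]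

theorem prim_iter {A : Type} [CommRing A] {n : ℕ} (P : Fin n → MvPolynomial (Fin n) A)
    (hg : Good P) (x : Fin n → A) (hx : Prim x) (k : ℕ) : Prim ((pt P)^[k] x) := by
  induction k with
  | zero => exact hx
  | succ k ih => rw [Function.iterate_succ_apply']; exact hg _ ih

theorem unit_of_prim {A : Type} [CommRing A] {n : ℕ} (c : A) (x : Fin n → A) (h : Prim (c • x)) :
    IsUnit c := by
  obtain ⟨i, hi⟩ := h
  exact isUnit_of_mul_isUnit_left hi

section DVR

variable {A : Type} [CommRing A] [IsDomain A] [IsDiscreteValuationRing A] {π : A}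

theorem isUnit_iff_not_dvd (hπ : Irreducible π) (a : A) : IsUnit a ↔ ¬ π ∣ a := by
  constructor
  · intro h hd
    exact hπ.not_isUnit (isUnit_of_dvd_unit hd h)
  · intro h
    by_contra hn
    apply h
    have h1 : a ∈ IsLocalRing.maximalIdeal A := (IsLocalRing.mem_maximalIdeal a).2 hn
    rw [hπ.maximalIdeal_eq] at h1
    exact Ideal.mem_span_singleton.1 h1

theorem isMaximal (hπ : Irreducible π) : (Ideal.span {π}).IsMaximal := by
  rw [← hπ.maximalIdeal_eq]
  infer_instance

theorem mk_eq_zero_iff (a : A) : Ideal.Quotient.mk (Ideal.span {π}) a = 0 ↔ π ∣ a := by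
  rw [Ideal.Quotient.eq_zero_iff_mem, Ideal.mem_span_singleton]

theorem mk_ne_zero_iff (hπ : Irreducible π) (a : A) :
    Ideal.Quotient.mk (Ideal.span {π}) a ≠ 0 ↔ IsUnit a := by
  rw [isUnit_iff_not_dvd hπ, Ne, mk_eq_zero_iff]

end DVR

end Pool.Agent.W800.UB
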