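import Pool.Agent.W275.UB.Den

set_option autoImplicit false

namespace Pool.Agent.W800.UB.Interp

open MvPolynomial Pool.Agent.W275.UB

theorem clear {ι : Type} (Θ : Finset (ι → ℤ)) (φ : Module.Dual ℚ (Θ → ℚ)) :
    ∃ (N : ℤ) (l : (ι → ℤ) → ℤ), N ≠ 0 ∧ ∀ v : Θ → ℚ, (N : ℚ) * φ v = ∑ t : Θ, (l t.1 : ℚ) * v t := by
  classical
  obtain ⟨b, hb⟩ := IsLocalization.exist_integer_multiples_of_finite (nonZeroDivisors ℤ)
    (fun t : Θ => φ (Pi.single t 1))
  choose l hl using hb
  refine ⟨b.1, fun t => if h : t ∈ Θ then l ⟨t, h⟩ else 0, nonZeroDivisors.ne_zero b.2, ?_⟩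
  intro v
  have h1 : v = ∑ t : Θ, v t • (Pi.single t (1 : ℚ) : Θ → ℚ) := by
    ext s
    simp [Finset.sum_apply, Pi.single_apply]
  conv_lhs => rw [h1]
  rw [map_sum, Finset.mul_sum]
  refine Finset.sum_congr rfl fun t _ => ?_
  rw [map_smul, smul_eq_mul]
  have h2 := hl t
  simp only [eq_intCast, zsmul_eq_mul] at h2
  have h4 : (fun t : ι → ℤ => if h : t ∈ Θ then l ⟨t, h⟩ else 0) t.1 = l t := by
    show (if h : t.1 ∈ Θ then l ⟨t.1, h⟩ else 0) = l t
    rw [dif_pos t.2]
  rw [h4, h2]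
  ring

theorem main : S_interp := by
  intro ι _ k Θ
  classical
  let vec : {μ : ι →₀ ℕ // μ.degree ≤ k} → (Θ → ℚ) := fun μ t => ∏ i, ((t.1 i : ℤ) : ℚ) ^ μ.1 i
  let W : Submodule ℚ (Θ → ℚ) := Submodule.span ℚ (Set.range vec)
  obtain ⟨S, hS⟩ : ∃ S : Finset (Module.Dual ℚ (Θ → ℚ)), Submodule.span ℚ (S : Set _) = W.dualAnnihilator :=
    (IsNoetherian.noetherian W.dualAnnihilator)
  choose N l hN hl using fun φ : Module.Dual ℚ (Θ → ℚ) => clear Θ φ
  refine ⟨S.image l, ?_, ?_⟩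
  · intro l' hl' μ hμ
    obtain ⟨φ, hφ, rfl⟩ := Finset.mem_image.1 hl'
    have h1 : φ (vec ⟨μ, hμ⟩) = 0 := by
      have h2 : φ ∈ W.dualAnnihilator := by
        rw [← hS]; exact Submodule.subset_span hφ
      exact (Submodule.mem_dualAnnihilator φ).1 h2 _ (Submodule.subset_span ⟨_, rfl⟩)
    have h3 := hl φ (vec ⟨μ, hμ⟩)
    rw [h1, mul_zero] at h3
    have h4 : ((∑ t ∈ Θ, l φ t * ∏ i, t i ^ μ i : ℤ) : ℚ) = 0 := by
      rw [h3, ← Finset.sum_coe_sort Θ]
      push_cast
      rfl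
    exact_mod_cast h4
  · intro T hT
    have hW : (fun t : Θ => ((T t.1 : ℤ) : ℚ)) ∈ W := by
      have h5 : W = W.dualAnnihilator.dualCoannihilator :=
        (Subspace.dualAnnihilator_dualCoannihilator_eq).symm
      rw [h5, Submodule.mem_dualCoannihilator]
      intro φ hφ
      rw [← hS] at hφ
      induction hφ using Submodule.span_induction with
      | mem φ hφ =>
        have h6 := hl φ (fun t : Θ => ((T t.1 : ℤ) : ℚ))
        have h7 := hT (l φ) (Finset.mem_image_of_mem l hφ)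
        have h8 : (N φ : ℚ) * φ (fun t : Θ => ((T t.1 : ℤ) : ℚ)) = 0 := by
          rw [h6]
          have h9 : ((∑ t ∈ Θ, l φ t * T t : ℤ) : ℚ) = 0 := by exact_mod_cast h7
          rw [← h9, ← Finset.sum_coe_sort Θ]
          push_cast
          rfl
        rcases mul_eq_zero.1 h8 with h | h
        · exact absurd (by exact_mod_cast h) (hN φ)
        · exact h
      | zero => rfl
      | add a b _ _ ha hb => rw [LinearMap.add_apply, ha, hb, add_zero]
      | smul c a _ ha => rw [LinearMap.smul_apply, ha, smul_zero]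
    obtain ⟨c, hc⟩ := (Finsupp.mem_span_range_iff_exists_finsupp).1 hW
    refine ⟨∑ μ ∈ c.support, monomial μ.1 (c μ), ?_, ?_⟩
    · refine (totalDegree_finsetSum_le ?_)
      intro μ _
      refine (totalDegree_monomial_le _ _).trans ?_
      exact μ.2
    · intro t ht
      rw [map_sum]
      have h10 := congrFun hc ⟨t, ht⟩
      simp only [Finsupp.sum, Finset.sum_apply, Pi.smul_apply, smul_eq_mul] at h10
      rw [← h10]
      refine Finset.sum_congr rfl fun μ _ => ?_
      rw [eval_monomial]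
      congr 1
      exact Finsupp.prod_fintype _ _ (fun i => pow_zero _)

end Pool.Agent.W800.UB.Interp
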